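import Pool.Agent.Helper87.CA.Goals

/-!
Project CA (MP_c5396e_co), packet GOOD: most random sets of columns are good.
-/

set_option autoImplicit false

open Finset

namespace Pool.Agent.Helper12.CA

open Pool.Agent.Helper87.CA Pool.Agent.Helper96

theorem depOn_coord {E : Type*} [DecidableEq E] (i : E) :
    DepOn (fun ω : E → Bool => ω i = true) {i} := by
  intro ω ω' h
  have := h i (Finset.mem_singleton_self i)
  simp only [this]

theorem pr_coord {E : Type*} [Fintype E] [DecidableEq E] (p : ℝ) (i : E) :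
    pr p (fun ω : E → Bool => ω i = true) = p := by
  have h := pr_all_true (E := E) p {i}
  simpa using h

theorem card_Om (n u : ℕ) (hn : 1 ≤ n) (hu : u ≤ n) : ((Om n u).card : ℝ) ≤ 4 * (n : ℝ) ^ 2 := by
  unfold Om
  rw [Finset.card_product, Int.card_Ioo]
  have h : (((n : ℤ) - (-(u : ℤ)) - 1).toNat) ≤ 2 * n := by omega
  have h' : ((((n : ℤ) - (-(u : ℤ)) - 1).toNat : ℕ) : ℝ) ≤ 2 * n := by exact_mod_cast h
  have h0 : (0 : ℝ) ≤ ((((n : ℤ) - (-(u : ℤ)) - 1).toNat : ℕ) : ℝ) := Nat.cast_nonneg _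
  push_cast
  nlinarith

theorem card_grid (n : ℕ) :
    (((Finset.Ico (0 : ℤ) n ×ˢ Finset.Ico (0 : ℤ) n).card : ℕ) : ℝ) = (n : ℝ) ^ 2 := by
  rw [Finset.card_product, Int.card_Ico]
  simp
  ring

theorem exp_log4 {n : ℕ} (hn : 5 ≤ n) : Real.exp (-(4 * Real.log n)) = 1 / (n : ℝ) ^ 4 := by
  have hn0 : (0 : ℝ) < n := by
    have : 0 < n := by omega
    exact_mod_cast this
  rw [Real.exp_neg, one_div]
  congr 1
  have : (4 : ℝ) * Real.log n = ((4 : ℕ) : ℝ) * Real.log n := by norm_num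
  rw [this, Real.exp_nat_mul, Real.exp_log hn0]

theorem part_a {n u : ℕ} (f : Fin n → Fin n) {p : ℝ} (hp0 : 0 < p) (hp1 : p ≤ 1) (hn : 5 ≤ n)
    (hL2 : 64 * Real.log n ≤ p * ((u : ℝ) ^ 2 / n)) (t : ℤ × ℤ)
    (ht : (u : ℝ) ^ 2 / n / 2 ≤ cw u f Finset.univ t) :
    pr p (fun ω : Fin n → Bool => ((cw u f (Rs ω) t : ℕ) : ℝ) < p * ((u : ℝ) ^ 2 / n) / 4) ≤
      1 / (n : ℝ) ^ 4 := by
  classical
  set I : Finset (Fin n) := Finset.univ.filter (fun i => InW u t (pt f i)) with hI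
  have hIc : ((I.card : ℕ) : ℝ) = cw u f Finset.univ t := rfl
  have hc : ∀ ω : Fin n → Bool, cw u f (Rs ω) t = cnt I (fun i ω => ω i = true) ω := by
    intro ω
    refine card_eq_cnt (S := (Rs ω).filter (fun i => InW u t (pt f i))) fun i => ?_
    simp only [Rs, hI, Finset.mem_filter, Finset.mem_univ, true_and]
    exact and_comm
  have h1 := chernoff_lower' (E := Fin n) hp0.le hp1 I (A := fun i ω => ω i = true)
    (U := fun i => {i})
    (fun i _ j _ hij => by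
      rw [Finset.disjoint_singleton]
      exact hij)
    (fun i _ => depOn_coord i) p (p * ((u : ℝ) ^ 2 / n) / 4) hp0.le
    (fun i _ => (pr_coord p i).ge) (by rw [hIc]; nlinarith)
  refine (pr_mono hp0.le hp1 fun ω hω => ?_).trans (h1.trans ?_)
  · rw [hc ω] at hω
    exact hω.le
  · rw [← exp_log4 hn]
    apply Real.exp_le_exp.2
    rw [hIc]
    nlinarith

theorem part_b (hPK : G_PK) {n u : ℕ} (f : Fin n → Fin n) (hf : Cos f) {p N0 : ℝ} (hp0 : 0 < p)
    (hp1 : p ≤ 1) (hn : 5 ≤ n)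
    (hL1 : 52 * Real.log n ≤ p ^ 3 * N0) (v : ℤ × ℤ) (hv : ∀ i, pt f i ≠ v) :
    pr p (fun ω : Fin n → Bool => ¬ (((Rs ω ∩ A1 u f v).card : ℝ) < 4 * p * N0 ∨
      Kill f (Rs ω) v)) ≤ 1 / (n : ℝ) ^ 4 := by
  classical
  have hlog : 0 ≤ Real.log n := Real.log_natCast_nonneg n
  have hN0 : 0 ≤ N0 := by
    have h3 : 0 < p ^ 3 := by positivity
    by_contra h
    push Not at h
    nlinarith
  rcases le_or_gt N0 ((A1 u f v).card : ℝ) with hA | hA
  · refine (pr_mono hp0.le hp1 (B := fun ω => ¬ Kill f (Rs ω) v) fun ω hω => ?_).trans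
      ((hPK n u f v p hf hv hp0.le hp1).trans ?_)
    · intro h
      exact hω (Or.inr h)
    · rw [← exp_log4 hn]
      apply Real.exp_le_exp.2
      have h3 : 0 ≤ p ^ 3 := by positivity
      have := mul_le_mul_of_nonneg_left hA h3
      linarith
  · have hc : ∀ ω : Fin n → Bool, (Rs ω ∩ A1 u f v).card =
        cnt (A1 u f v) (fun i ω => ω i = true) ω := by
      intro ω
      refine card_eq_cnt fun i => ?_
      simp only [Rs, Finset.mem_inter, Finset.mem_filter, Finset.mem_univ, true_and]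
      exact and_comm
    have h1 := chernoff_upper' (E := Fin n) hp0.le hp1 (A1 u f v) (A := fun i ω => ω i = true)
      (U := fun i => {i})
      (fun i _ j _ hij => by
        rw [Finset.disjoint_singleton]
        exact hij)
      (fun i _ => depOn_coord i) p (4 * p * N0) (fun i _ => (pr_coord p i).le)
      (by nlinarith [mul_le_mul_of_nonneg_left hA.le hp0.le])
    refine (pr_mono hp0.le hp1 fun ω hω => ?_).trans (h1.trans ?_)
    · rw [← hc ω]
      push Not at hω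
      exact hω.1
    · rw [← exp_log4 hn]
      apply Real.exp_le_exp.2
      have h3 : p ^ 3 ≤ p := by
        have : p ^ 2 ≤ 1 := by nlinarith
        nlinarith
      have := mul_le_mul_of_nonneg_right h3 hN0
      linarith

theorem ex_card {n : ℕ} (p : ℝ) (V : Finset (Fin n)) :
    ex p (fun ω : Fin n → Bool => ((Rs ω ∩ V).card : ℝ)) = V.card * p := by
  classical
  have h : ∀ ω : Fin n → Bool, ((Rs ω ∩ V).card : ℝ) =
      ∑ i ∈ V, (if ω i = true then (1 : ℝ) else 0) := by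
    intro ω
    have : Rs ω ∩ V = V.filter (fun i => ω i = true) := by
      ext i
      simp only [Rs, Finset.mem_inter, Finset.mem_filter, Finset.mem_univ, true_and]
      exact and_comm
    rw [this]
    simp
  simp_rw [h]
  rw [ex_sum]
  have h2 : ∀ i ∈ V, ex p (fun ω : Fin n → Bool => if ω i = true then (1 : ℝ) else 0) = p := by
    intro i _
    have h3 := pr_coord p i
    unfold pr at h3
    rw [← h3]
    congr 1
    ext ω
    by_cases hω : ω i = true <;> simp [hω]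
  rw [Finset.sum_congr rfl h2]
  simp

theorem part_c {n : ℕ} (V : Finset (Fin n)) {p k : ℝ} (hp0 : 0 < p) (hp1 : p ≤ 1) (hk : 0 < k)
    (hV : (V.card : ℝ) ≤ k) :
    pr p (fun ω : Fin n → Bool => ¬ (((Rs ω ∩ V).card : ℝ) < 4 * p * k)) ≤ 1 / 4 := by
  have hpk : 0 < 4 * p * k := by positivity
  have h1 := pr_le_ex (E := Fin n) hp0.le hp1
    (f := fun ω => (4 * p * k)⁻¹ * ((Rs ω ∩ V).card : ℝ))
    (A := fun ω : Fin n → Bool => ¬ (((Rs ω ∩ V).card : ℝ) < 4 * p * k))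
    (fun ω => by positivity) (fun ω hω => by
      push Not at hω
      rw [inv_mul_eq_div, le_div_iff₀ hpk]
      linarith)
  refine h1.trans ?_
  rw [ex_smul, ex_card, inv_mul_eq_div, div_le_iff₀ hpk]
  nlinarith

theorem gGOOD : Pool.Agent.Helper87.CA.G_GOOD := by
  classical
  intro hPK n u f0 f p N0 k hn hf hu1 hu hp0 hp1 hk hV hL1 hL2
  have hnR : (5 : ℝ) ≤ n := by exact_mod_cast hn
  set T := (Om n u).filter (fun t => (u : ℝ) ^ 2 / n / 2 ≤ cw u f Finset.univ t) with hT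
  set W := (Finset.Ico (0 : ℤ) n ×ˢ Finset.Ico (0 : ℤ) n).filter (fun v => ∀ i, pt f i ≠ v)
    with hW
  have hbad : pr p (fun ω : Fin n → Bool => ¬ Good u p N0 k f0 f ω) ≤
      pr p (fun ω : Fin n → Bool => ∃ t ∈ T, ((cw u f (Rs ω) t : ℕ) : ℝ) <
        p * ((u : ℝ) ^ 2 / n) / 4) +
      (pr p (fun ω : Fin n → Bool => ∃ v ∈ W, ¬ (((Rs ω ∩ A1 u f v).card : ℝ) < 4 * p * N0 ∨
        Kill f (Rs ω) v)) +
      pr p (fun ω : Fin n → Bool => ¬ (((Rs ω ∩ Vd f f0).card : ℝ) < 4 * p * k))) := by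
    refine le_trans ?_ ((pr_or_le hp0.le hp1 _ _).trans
      (add_le_add le_rfl (pr_or_le hp0.le hp1 _ _)))
    refine pr_mono hp0.le hp1 fun ω hω => ?_
    by_contra hcon
    apply hω
    rw [not_or, not_or] at hcon
    obtain ⟨c1, c2, c3⟩ := hcon
    refine ⟨fun t ht hd => ?_, fun v hv hdot => ?_, ?_⟩
    · by_contra h
      push Not at h
      exact c1 ⟨t, Finset.mem_filter.2 ⟨ht, hd⟩, h⟩
    · by_contra h
      exact c2 ⟨v, Finset.mem_filter.2 ⟨hv, hdot⟩, h⟩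
    · exact not_not.1 c3
  have hn4 : (0 : ℝ) ≤ 1 / (n : ℝ) ^ 4 := by positivity
  have ha : pr p (fun ω : Fin n → Bool => ∃ t ∈ T, ((cw u f (Rs ω) t : ℕ) : ℝ) <
        p * ((u : ℝ) ^ 2 / n) / 4) ≤ 4 * (n : ℝ) ^ 2 * (1 / (n : ℝ) ^ 4) := by
    refine (pr_exists_le_card hp0.le hp1 T _ (1 / (n : ℝ) ^ 4) fun t ht =>
      part_a f hp0 hp1 hn hL2 t (Finset.mem_filter.1 ht).2).trans ?_
    refine mul_le_mul_of_nonneg_right ?_ hn4
    refine le_trans ?_ (card_Om n u (by omega) hu)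
    exact_mod_cast Finset.card_filter_le _ _
  have hb : pr p (fun ω : Fin n → Bool => ∃ v ∈ W,
        ¬ (((Rs ω ∩ A1 u f v).card : ℝ) < 4 * p * N0 ∨ Kill f (Rs ω) v)) ≤
        (n : ℝ) ^ 2 * (1 / (n : ℝ) ^ 4) := by
    refine (pr_exists_le_card hp0.le hp1 W _ (1 / (n : ℝ) ^ 4) fun v hv =>
      part_b hPK f hf hp0 hp1 hn hL1 v (Finset.mem_filter.1 hv).2).trans ?_
    refine mul_le_mul_of_nonneg_right ?_ hn4
    rw [← card_grid n]
    exact_mod_cast Finset.card_filter_le _ _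
  have hc := part_c (Vd f f0) hp0 hp1 hk hV
  have hsum : 4 * (n : ℝ) ^ 2 * (1 / (n : ℝ) ^ 4) + ((n : ℝ) ^ 2 * (1 / (n : ℝ) ^ 4) + 1 / 4) ≤
      1 / 2 := by
    have h1 : (n : ℝ) ^ 2 * (1 / (n : ℝ) ^ 4) = 1 / (n : ℝ) ^ 2 := by
      field_simp
    have h2 : 1 / (n : ℝ) ^ 2 ≤ 1 / 25 := by
      apply one_div_le_one_div_of_le (by norm_num)
      nlinarith
    rw [mul_assoc, h1]
    linarith
  rw [pr_not] at hbad
  linarith

end Pool.Agent.Helper12.CA
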